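import Pool.Agent.W452.UF.Final

/-!
# MP_7857a6_al, Q2: unitary F-matrices versus unitarity of fusion categories

For every fusion category `C` over `ℂ` and every choice `S` of representatives of its simple
objects, there is a gauge (a choice of a basis of every space `Hom(c, a ⊗ b)`, `a, b, c` simple) in
which all F-matrices are unitary if and only if `C` is unitary, that is equivalent, as a `ℂ`-linear
monoidal category, to a C*-tensor category (with unitary associator and unit constraints).

The new implication is from left to right. Given the gauge, the objects of the C*-tensor category
are the objects of `C` together with an orthonormal decomposition into simple objects; the gauge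
makes a decomposition of `X ⊗ Y` out of decompositions of `X` and `Y`; unitarity of the F-matrices
makes the associator unitary, and forces the moduli of all the numbers of the left and right unit
constraints to agree, so that one scaling of the unit object makes them unitary.

All definitions are in `Pool.Agent.W452.UF.Defs`.
-/

set_option autoImplicit false

open CategoryTheory CategoryTheory.Limits MonoidalCategory

namespace Pool.Agent.Results.MP_7857a6_al.UnitaryIffGauge

open Pool.Agent.W452.UF

universe v u

/-- **A complex fusion category has a gauge in which all F-matrices are unitary if and only if it
is unitary.** -/
theorem result {C : Type u} [Category.{v} C] [Abelian C] [Linear ℂ C] [MonoidalCategory C]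
    [MonoidalPreadditive C] [MonoidalLinear ℂ C] [RigidCategory C] (hC : IsFusionCategory C)
    {n : ℕ} (S : Fin n → C) (hS : ListsSimples S) :
    (∃ G : Gauge S, HasUnitaryF G) ↔ IsUnitary C :=
  ⟨fun ⟨G, hG⟩ => isUnitary_of_gauge hC hS G hG, fun h => gauge_of_isUnitary hC hS h⟩

end Pool.Agent.Results.MP_7857a6_al.UnitaryIffGauge
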